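import Mathlib

set_option autoImplicit false

/-!
# Mean-width-preserving symmetrizations: every dimension, both classes

For `H = {o}` there is, for every `n ≥ 2`, one map on all compact convex sets which is a monotonic,
`V₁`-preserving symmetrization fixing the symmetric sets, both for the compact convex sets and for
the convex bodies, and which is not invariant under translations of symmetric bodies. For `n = 1`
(both classes), and for every hyperplane `H` (compact convex sets), such a symmetrization is always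
invariant under the orthogonal translations.
-/

open MeasureTheory Set

namespace Pool.Agent.Results.MP_a761c9_gt.EquivariantExample

/-- Euclidean space. -/
abbrev E (n : ℕ) := EuclideanSpace ℝ (Fin n)

/-- The support function. -/
noncomputable def h {n : ℕ} (K : Set (E n)) (v : E n) : ℝ :=
  sSup ((fun y : E n => @inner ℝ (E n) _ y v) '' K)

/-- A positive multiple (depending on `n` only) of the mean width, hence of `V₁`. -/
noncomputable def W {n : ℕ} (K : Set (E n)) : ℝ := ∫ v : E n, h K v * Real.exp (-‖v‖ ^ 2)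

/-- The class `𝒦ⁿ` of nonempty compact convex sets (`b = false`), or the class `𝒦ⁿₙ` of convex
bodies (`b = true`). -/
def InClass {n : ℕ} (b : Bool) (K : Set (E n)) : Prop :=
  IsCompact K ∧ Convex ℝ K ∧ K.Nonempty ∧ (b = true → (interior K).Nonempty)

/-- `K` is invariant under the reflection in `H`. -/
def SymIn {n : ℕ} (H : Submodule ℝ (E n)) (K : Set (E n)) : Prop :=
  ∀ x ∈ K, ∀ y ∈ H, ∀ z ∈ Hᗮ, x = y + z → y - z ∈ K

/-- `D` is a symmetrization of the class which is monotonic, `V₁`-preserving and invariant on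
`H`-symmetric sets. -/
def IsSymmetrization {n : ℕ} (b : Bool) (H : Submodule ℝ (E n)) (D : Set (E n) → Set (E n)) :
    Prop :=
  (∀ K, InClass b K → InClass b (D K) ∧ SymIn H (D K)) ∧
  (∀ K L, InClass b K → InClass b L → K ⊆ L → D K ⊆ D L) ∧
  (∀ K, InClass b K → W (D K) = W K) ∧
  (∀ K, InClass b K → SymIn H K → D K = K)

/-- `D` is invariant under translations orthogonal to `H` of `H`-symmetric sets. -/
def TranslationInvariant {n : ℕ} (b : Bool) (H : Submodule ℝ (E n)) (D : Set (E n) → Set (E n)) :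
    Prop :=
  ∀ K, InClass b K → SymIn H K → ∀ x ∈ Hᗮ, D ((fun y => y + x) '' K) = K

variable {n : ℕ}

theorem hmax {K : Set (E n)} (c : IsCompact K) (ne : K.Nonempty) (v : E n) :
    IsGreatest ((fun y : E n => @inner ℝ (E n) _ y v) '' K) (h K v) :=
  (c.image (by fun_prop)).isGreatest_sSup (ne.image _)

theorem hle {K : Set (E n)} (c : IsCompact K) {y} (hy : y ∈ K) (v : E n) : inner ℝ y v ≤ h K v :=
  (hmax c ⟨y, hy⟩ v).2 ⟨y, hy, rfl⟩

theorem gauss : Integrable fun v : E n => ‖v‖ * Real.exp (-‖v‖ ^ 2) := by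
  have := (GaussianFourier.integrable_cexp_neg_mul_sq_norm_add (V := E n) (b := 1 / 2)
    (by norm_num) 0 0).norm
  refine this.mono' (by fun_prop) (ae_of_all _ fun v => ?_)
  have e : (-(1 / 2 : ℂ) * (‖v‖ : ℂ) ^ 2 + 0 * (inner ℝ (0 : E n) v : ℝ)) =
    ((-(1 / 2) * ‖v‖ ^ 2 : ℝ) : ℂ) := by push_cast; ring
  rw [e, ← Complex.ofReal_exp, Complex.norm_real, Real.norm_of_nonneg (by positivity),
    Real.norm_of_nonneg (by positivity),
    show -(1 / 2) * ‖v‖ ^ 2 = ‖v‖ ^ 2 / 2 + -‖v‖ ^ 2 by ring, Real.exp_add]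
  gcongr
  nlinarith [Real.add_one_le_exp (‖v‖ ^ 2 / 2), sq_nonneg (‖v‖ - 1)]

theorem hlip {K : Set (E n)} (c : IsCompact K) (ne : K.Nonempty) :
    ∃ R : ℝ, ∀ v w, h K v ≤ h K w + R * ‖v - w‖ := by
  obtain ⟨R, hR⟩ := c.isBounded.exists_norm_le
  refine ⟨R, fun v w => ?_⟩
  obtain ⟨y, hy, e⟩ := (hmax c ne v).1
  have := hle c hy w
  have a := real_inner_le_norm y (v - w)
  have := mul_le_mul_of_nonneg_right (hR y hy) (norm_nonneg (v - w))
  rw [inner_sub_right] at a
  simp only at e; linarith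

theorem hcont {K : Set (E n)} (c : IsCompact K) (ne : K.Nonempty) : Continuous (h K) := by
  obtain ⟨R, l⟩ := hlip c ne
  exact (LipschitzWith.of_le_add_mul' R fun v w => by rw [dist_eq_norm]; exact l v w).continuous

theorem hint {K : Set (E n)} (c : IsCompact K) (ne : K.Nonempty) {f : ℝ → ℝ} (hf : Continuous f)
    (hb : ∀ t, |f t| ≤ |t|) :
    Integrable fun v : E n => f (h K v) * Real.exp (-‖v‖ ^ 2) := by
  obtain ⟨R, l⟩ := hlip c ne
  have z : h K 0 = 0 := by obtain ⟨y, -, e⟩ := (hmax c ne 0).1; simpa using e.symm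
  have ct : Continuous (h K) := hcont c ne
  refine (gauss.const_mul R).mono' (by fun_prop) (ae_of_all _ fun v => ?_)
  rw [norm_mul, Real.norm_of_nonneg (Real.exp_pos _).le, ← mul_assoc]
  gcongr
  have a := l v 0; have b := l 0 v
  simp only [z, sub_zero, zero_sub, norm_neg] at a b
  exact (hb _).trans (abs_le.2 ⟨by linarith, by linarith⟩)

noncomputable def P (K : Set (E n)) : ℝ := ∫ v : E n, max (h K v) 0 * Real.exp (-‖v‖ ^ 2)
noncomputable def N (K : Set (E n)) : ℝ := ∫ v : E n, max (-h K v) 0 * Real.exp (-‖v‖ ^ 2)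
noncomputable def lam (K : Set (E n)) : ℝ := 1 - N K / P K
def A (K : Set (E n)) : Set (E n) := (fun p : ℝ × E n => p.1 • p.2) '' Icc 0 (lam K) ×ˢ K
/-- The symmetrization: half the difference body of the star of `K`, cut at the level `lam K`. -/
def D (K : Set (E n)) : Set (E n) := (fun p : E n × E n => (1 / 2 : ℝ) • (p.1 - p.2)) '' A K ×ˢ A K

section
variable {K L : Set (E n)} (c : IsCompact K) (ne : K.Nonempty)
include c ne

theorem iP : Integrable fun v : E n => max (h K v) 0 * Real.exp (-‖v‖ ^ 2) :=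
  hint c ne (f := fun t => max t 0) (by fun_prop) fun t => by grind
theorem iN : Integrable fun v : E n => max (-h K v) 0 * Real.exp (-‖v‖ ^ 2) :=
  hint c ne (f := fun t => max (-t) 0) (by fun_prop) fun t => by grind

omit c ne in
theorem P_neg : ∫ v : E n, max (h K (-v)) 0 * Real.exp (-‖v‖ ^ 2) = P K := by
  simpa [P] using integral_neg_eq_self (fun v : E n => max (h K v) 0 * Real.exp (-‖v‖ ^ 2)) volume

theorem iP' : Integrable fun v : E n => max (h K (-v)) 0 * Real.exp (-‖v‖ ^ 2) := by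
  simpa using (iP c ne).comp_neg

omit c ne in
theorem N0 : 0 ≤ N K := integral_nonneg fun v => by positivity

theorem NP : N K ≤ P K := by
  rw [← P_neg]
  refine integral_mono (iN c ne) (iP' c ne) fun v => ?_
  obtain ⟨y, hy⟩ := ne
  have a := hle c hy v; have b := hle c hy (-v)
  rw [inner_neg_right] at b
  simp only; gcongr; linarith

theorem lam0 : 0 ≤ lam K := sub_nonneg.2 (div_le_one_of_le₀ (NP c ne) (N0.trans (NP c ne)))

theorem lam_mono (c' : IsCompact L) (s : K ⊆ L) : lam K ≤ lam L := by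
  have n' := ne.mono s
  have m : ∀ v, h K v ≤ h L v := fun v => by
    obtain ⟨y, hy, e⟩ := (hmax c ne v).1; exact e ▸ hle c' (s hy) v
  have a : P K ≤ P L := integral_mono (iP c ne) (iP c' n') fun v => by simp only; gcongr; exact m v
  have b : N L ≤ N K := integral_mono (iN c' n') (iN c ne) fun v => by simp only; gcongr; exact m v
  refine sub_le_sub_left ?_ _
  rcases (N0.trans (NP c ne)).eq_or_lt with e | e
  · have : N L = 0 := by linarith [NP c ne, N0 (K := L)]
    simp [this, ← e]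
  · exact div_le_div₀ N0 b e a

theorem hD (v : E n) : h (D K) v = lam K * ((max (h K v) 0 + max (h K (-v)) 0) / 2) := by
  have l := lam0 c ne
  have k : ∀ v, IsGreatest ((fun y : E n => @inner ℝ (E n) _ y v) '' A K)
      (lam K * max (h K v) 0) := fun v => by
    obtain ⟨y, hy, e⟩ := (hmax c ne v).1
    refine ⟨?_, ?_⟩
    · rcases le_total (h K v) 0 with a | a
      · exact ⟨_, ⟨(0, y), ⟨⟨le_rfl, l⟩, hy⟩, rfl⟩, by simp [a]⟩
      · exact ⟨_, ⟨(lam K, y), ⟨⟨l, le_rfl⟩, hy⟩, rfl⟩, by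
          simp only at e; simp [a, inner_smul_left, e]⟩
    · rintro _ ⟨_, ⟨⟨s, z⟩, ⟨⟨s0, s1⟩, hz⟩, rfl⟩, rfl⟩
      simp only [inner_smul_left, conj_trivial]
      exact (mul_le_mul_of_nonneg_left ((hle c hz v).trans (le_max_left _ 0)) s0).trans
        (mul_le_mul_of_nonneg_right s1 (le_max_right _ _))
  refine IsGreatest.csSup_eq ⟨?_, ?_⟩
  · obtain ⟨y, hy, e⟩ := (k v).1
    obtain ⟨z, hz, e'⟩ := (k (-v)).1
    refine ⟨_, ⟨(y, z), ⟨hy, hz⟩, rfl⟩, ?_⟩
    simp only [inner_smul_left, inner_sub_left, inner_neg_right, conj_trivial] at e e' ⊢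
    linarith
  · rintro _ ⟨_, ⟨⟨y, z⟩, ⟨hy, hz⟩, rfl⟩, rfl⟩
    have a := (k v).2 ⟨y, hy, rfl⟩
    have b := (k (-v)).2 ⟨z, hz, rfl⟩
    simp only [inner_smul_left, inner_sub_left, inner_neg_right, conj_trivial] at a b ⊢
    linarith

theorem WD : W (D K) = W K := by
  have a : W K = P K - N K := by
    rw [W, P, N, ← integral_sub (iP c ne) (iN c ne)]
    congr 1; ext v; rw [← sub_mul]; congr 1; grind
  have b : W (D K) = lam K / 2 * (P K + P K) := by
    nth_rw 2 [← P_neg]
    rw [W, P, ← integral_add (iP c ne) (iP' c ne), ← integral_const_mul]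
    congr 1; ext v; rw [hD c ne]; ring
  rw [a, b, lam]
  rcases eq_or_ne (P K) 0 with e | e
  · have : N K = 0 := by linarith [NP c ne, N0 (K := K)]
    simp [e, this]
  · field_simp; ring
end

/-- Strict monotonicity of the mean width. -/
theorem W_strict {K L : Set (E n)} (cK : IsCompact K) (vK : Convex ℝ K) (nK : K.Nonempty)
    (cL : IsCompact L) (s : K ⊆ L) (e : W K = W L) : K = L := by
  refine Subset.antisymm s fun x hx => ?_
  by_contra hxK
  obtain ⟨f, u, u', hf1, huu, hf2⟩ := geometric_hahn_banach_compact_closed vK cK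
    (convex_singleton x) isClosed_singleton (disjoint_singleton_right.2 hxK)
  set w : E n := (InnerProductSpace.toDual ℝ (E n)).symm f with hw
  have hfw : ∀ y : E n, inner ℝ y w = f y := by
    intro y
    rw [real_inner_comm, hw, InnerProductSpace.toDual_symm_apply]
  have nL := nK.mono s
  have m : ∀ v, h K v ≤ h L v := fun v => by
    obtain ⟨y, hy, e⟩ := (hmax cK nK v).1; exact e ▸ hle cL (s hy) v
  have lt : h K w < h L w := by
    obtain ⟨y, hy, e⟩ := (hmax cK nK w).1
    have h1 := hf1 y hy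
    have h2 := hf2 x rfl
    have h3 := hle cL hx w
    rw [hfw] at h3
    simp only [hfw] at e
    linarith
  have iK : Integrable fun v : E n => h K v * Real.exp (-‖v‖ ^ 2) :=
    hint cK nK (f := fun t => t) continuous_id fun t => le_rfl
  have iL : Integrable fun v : E n => h L v * Real.exp (-‖v‖ ^ 2) :=
    hint cL nL (f := fun t => t) continuous_id fun t => le_rfl
  have i0 : ∫ v : E n, (h L v * Real.exp (-‖v‖ ^ 2) - h K v * Real.exp (-‖v‖ ^ 2)) = 0 := by
    rw [integral_sub iL iK]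
    unfold W at e
    linarith
  have nn : 0 ≤ fun v : E n => h L v * Real.exp (-‖v‖ ^ 2) - h K v * Real.exp (-‖v‖ ^ 2) := by
    intro v
    have := mul_le_mul_of_nonneg_right (m v) (Real.exp_pos (-‖v‖ ^ 2)).le
    simpa using this
  have ae := (integral_eq_zero_iff_of_nonneg nn (iL.sub iK)).1 i0
  have cL' := hcont cL nL
  have cK' := hcont cK nK
  have ct : Continuous fun v : E n =>
      h L v * Real.exp (-‖v‖ ^ 2) - h K v * Real.exp (-‖v‖ ^ 2) := by fun_prop
  have := congrFun ((ct.ae_eq_iff_eq volume continuous_const).1 ae) w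
  simp only [← sub_mul] at this
  have h1 := (mul_eq_zero.1 this).resolve_right (Real.exp_pos _).ne'
  linarith

/-- The mean width of a body is positive if the dimension is. -/
theorem W_pos (hn : 0 < n) {K : Set (E n)} (c : IsCompact K) (i : (interior K).Nonempty) :
    0 < W K := by
  obtain ⟨p, hp⟩ := i
  obtain ⟨r, r0, hr⟩ := Metric.isOpen_iff.1 isOpen_interior p hp
  have hK : ∀ v : E n, inner ℝ p v + r / 2 * ‖v‖ ≤ h K v := by
    intro v
    rcases eq_or_ne v 0 with rfl | hv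
    · have := hle c (interior_subset hp) 0
      simpa using this
    · have hv' : 0 < ‖v‖ := norm_pos_iff.2 hv
      have hm : p + (r / 2 / ‖v‖) • v ∈ K := by
        refine interior_subset (hr ?_)
        rw [Metric.mem_ball, dist_eq_norm, add_sub_cancel_left, norm_smul, Real.norm_eq_abs,
          abs_of_pos (by positivity), div_mul_cancel₀ _ hv'.ne']
        linarith
      have := hle c hm v
      rw [inner_add_left, inner_smul_left, conj_trivial, real_inner_self_eq_norm_sq] at this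
      have e : r / 2 / ‖v‖ * ‖v‖ ^ 2 = r / 2 * ‖v‖ := by field_simp
      linarith
  have ne : K.Nonempty := ⟨p, interior_subset hp⟩
  have iK : Integrable fun v : E n => h K v * Real.exp (-‖v‖ ^ 2) :=
    hint c ne (f := fun t => t) continuous_id fun t => le_rfl
  have iK' : Integrable fun v : E n => h K (-v) * Real.exp (-‖v‖ ^ 2) := by
    simpa using iK.comp_neg
  have e1 : ∫ v : E n, h K (-v) * Real.exp (-‖v‖ ^ 2) = W K := by
    simpa [W] using integral_neg_eq_self (fun v : E n => h K v * Real.exp (-‖v‖ ^ 2)) volume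
  have e2 : ∫ v : E n, (h K v * Real.exp (-‖v‖ ^ 2) + h K (-v) * Real.exp (-‖v‖ ^ 2)) =
      2 * W K := by
    rw [integral_add iK iK', e1, W]; ring
  have hle2 : ∫ v : E n, r * (‖v‖ * Real.exp (-‖v‖ ^ 2)) ≤
      ∫ v : E n, (h K v * Real.exp (-‖v‖ ^ 2) + h K (-v) * Real.exp (-‖v‖ ^ 2)) := by
    refine integral_mono (gauss.const_mul r) (iK.add iK') fun v => ?_
    have a := hK v
    have b := hK (-v)
    rw [inner_neg_right, norm_neg] at b
    simp only
    rw [← add_mul, ← mul_assoc]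
    gcongr
    linarith
  rw [e2, integral_const_mul] at hle2
  have hpos : 0 < ∫ v : E n, ‖v‖ * Real.exp (-‖v‖ ^ 2) := by
    rw [lt_iff_le_and_ne]
    refine ⟨integral_nonneg fun v => by positivity, fun h0 => ?_⟩
    have ae := (integral_eq_zero_iff_of_nonneg (fun v : E n => by positivity) gauss).1 h0.symm
    have ct : Continuous fun v : E n => ‖v‖ * Real.exp (-‖v‖ ^ 2) := by fun_prop
    have := congrFun ((ct.ae_eq_iff_eq volume continuous_const).1 ae)
      (EuclideanSpace.single ⟨0, hn⟩ (1 : ℝ))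
    simp at this
    exact (Real.exp_pos (-1)).ne' this
  have := mul_pos r0 hpos
  linarith

theorem sym_bot {K : Set (E n)} : SymIn (⊥ : Submodule ℝ (E n)) K ↔ ∀ x ∈ K, -x ∈ K := by
  constructor
  · intro s x hx
    simpa using s x hx 0 (by simp) x (by simp) (by simp)
  · rintro s x hx y rfl z - e
    rw [zero_add] at e
    subst e
    simpa using s x hx

theorem D_class (hn : 0 < n) {b : Bool} {K : Set (E n)} (hK : InClass b K) : InClass b (D K) := by
  obtain ⟨c, v, ne, i⟩ := hK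
  have cA : IsCompact (A K) := (isCompact_Icc.prod c).image (by fun_prop)
  have vA : Convex ℝ (A K) := by
    rintro _ ⟨⟨s, y⟩, ⟨hs, hy⟩, rfl⟩ _ ⟨⟨t, z⟩, ⟨ht, hz⟩, rfl⟩ a b ha hb hab
    obtain ⟨w, hw, e⟩ := v.exists_mem_add_smul_eq hy hz (mul_nonneg ha hs.1) (mul_nonneg hb ht.1)
    exact ⟨(_, w), ⟨convex_Icc _ _ hs ht ha hb hab, hw⟩, by simpa [smul_smul] using e⟩
  have l0 := lam0 c ne
  have nA : (A K).Nonempty := by
    obtain ⟨y, hy⟩ := ne
    exact ⟨_, (0, y), ⟨⟨le_rfl, l0⟩, hy⟩, rfl⟩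
  refine ⟨(cA.prod cA).image (by fun_prop), (vA.prod vA).linear_image
      ((1 / 2 : ℝ) • (LinearMap.fst ℝ (E n) (E n) - LinearMap.snd ℝ (E n) (E n))),
      (nA.prod nA).image _, fun hb => ?_⟩
  have hi := i hb
  have l1 : 0 < lam K := by
    rcases l0.eq_or_lt with l1 | l1
    · exfalso
      have := W_pos hn c hi
      rw [← WD c ne, W] at this
      simp [hD c ne, ← l1] at this
    · exact l1
  obtain ⟨p, hp⟩ := hi
  have hsub : (fun y : E n => (lam K / 2) • y - (lam K / 2) • p) '' K ⊆ D K := by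
    rintro _ ⟨y, hy, rfl⟩
    refine ⟨(lam K • y, lam K • p), ⟨⟨(lam K, y), ⟨⟨l0, le_rfl⟩, hy⟩, rfl⟩,
      ⟨(lam K, p), ⟨⟨l0, le_rfl⟩, interior_subset hp⟩, rfl⟩⟩, ?_⟩
    simp only
    module
  let φ : E n ≃ₜ E n := (Homeomorph.smulOfNeZero (lam K / 2) (by positivity)).trans
    (Homeomorph.addRight (-((lam K / 2) • p)))
  have hφ : ∀ y, φ y = (lam K / 2) • y - (lam K / 2) • p := by
    intro y
    simp [φ, sub_eq_add_neg]
  refine ⟨φ p, interior_mono hsub ?_⟩
  have himg : (fun y : E n => (lam K / 2) • y - (lam K / 2) • p) '' K = φ '' K := by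
    refine image_congr fun y _ => (hφ y).symm
  rw [himg, ← φ.image_interior]
  exact ⟨p, hp, rfl⟩

theorem D_symm {K : Set (E n)} : SymIn (⊥ : Submodule ℝ (E n)) (D K) := by
  rw [sym_bot]
  rintro _ ⟨⟨p, q⟩, ⟨hp, hq⟩, rfl⟩
  exact ⟨(q, p), ⟨hq, hp⟩, by simp only; module⟩

theorem D_mono {K L : Set (E n)} (c : IsCompact K) (ne : K.Nonempty) (c' : IsCompact L)
    (s : K ⊆ L) : D K ⊆ D L := by
  have : A K ⊆ A L := image_mono (prod_mono (Icc_subset_Icc_right (lam_mono c ne c' s)) s)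
  exact image_mono (prod_mono this this)

theorem D_fix {K : Set (E n)} (c : IsCompact K) (v : Convex ℝ K) (ne : K.Nonempty)
    (s : SymIn (⊥ : Submodule ℝ (E n)) K) : D K = K := by
  rw [sym_bot] at s
  obtain ⟨y, hy⟩ := ne
  have z : (0 : E n) ∈ K := by
    simpa using v hy (s y hy) (by norm_num : (0 : ℝ) ≤ 1 / 2) (by norm_num) (add_halves 1)
  have l : lam K = 1 := by
    have : N K = 0 := by
      rw [N, ← integral_zero (E n) ℝ]; congr 1; ext w
      have := hle c z w
      simp at this; simp [this]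
    simp [lam, this]
  have a : A K = K := by
    rw [A, l]
    refine Subset.antisymm ?_ fun x hx => ⟨(1, x), ⟨by simp, hx⟩, by simp⟩
    rintro _ ⟨⟨t, x⟩, ⟨ht, hx⟩, rfl⟩
    exact v.smul_mem_of_zero_mem z hx ht
  rw [D, a]
  refine Subset.antisymm ?_ fun x hx => ⟨(x, -x), ⟨hx, s x hx⟩, by simp only; module⟩
  rintro _ ⟨⟨p, q⟩, ⟨hp, hq⟩, rfl⟩
  convert v hp (s q hq) (by norm_num : (0 : ℝ) ≤ 1 / 2) (by norm_num) (add_halves 1) using 1
  simp only; module

theorem D_isSymmetrization (hn : 0 < n) (b : Bool) :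
    IsSymmetrization b (⊥ : Submodule ℝ (E n)) D :=
  ⟨fun _ hK => ⟨D_class hn hK, D_symm⟩, fun _ _ hK hL s => D_mono hK.1 hK.2.2.1 hL.1 s,
    fun _ hK => WD hK.1 hK.2.2.1, fun _ hK s => D_fix hK.1 hK.2.1 hK.2.2.1 s⟩

theorem D_not_translationInvariant (hn : 2 ≤ n) (b : Bool) :
    ¬ TranslationInvariant b (⊥ : Submodule ℝ (E n)) D := by
  intro H
  have hB : InClass b (Metric.closedBall (0 : E n) 1) :=
    ⟨isCompact_closedBall _ _, convex_closedBall _ _, ⟨0, by simp⟩, fun _ =>
      ⟨0, by rw [interior_closedBall _ one_ne_zero]; simp⟩⟩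
  have hS : SymIn (⊥ : Submodule ℝ (E n)) (Metric.closedBall (0 : E n) 1) := by
    rw [sym_bot]; intro x hx; simpa using hx
  let e0 : E n := EuclideanSpace.single ⟨0, by omega⟩ (1 : ℝ)
  let e1 : E n := EuclideanSpace.single ⟨1, by omega⟩ (1 : ℝ)
  have n0 : ‖e0‖ = 1 := by simp [e0]
  have n1 : ‖e1‖ = 1 := by simp [e1]
  have i01 : inner ℝ e0 e1 = 0 := by
    simp only [e0, e1]
    rw [EuclideanSpace.inner_single_left]
    simp
  have hT := H _ hB hS ((2 : ℝ) • e0) (by simp)
  set K := (fun y : E n => y + (2 : ℝ) • e0) '' Metric.closedBall (0 : E n) 1 with hK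
  have cK : IsCompact K := (isCompact_closedBall _ _).image (by fun_prop)
  have nK : K.Nonempty := ⟨_, 0, by simp, rfl⟩
  have hsup : ∀ v : E n, ‖v‖ = 1 → h K v = 1 + 2 * inner ℝ e0 v := by
    intro v hv
    refine IsGreatest.csSup_eq ⟨⟨_, ⟨v, by simp [hv], rfl⟩, ?_⟩, ?_⟩
    · simp only [inner_add_left, inner_smul_left, conj_trivial, real_inner_self_eq_norm_sq, hv]
      norm_num
    · rintro _ ⟨_, ⟨y, hy, rfl⟩, rfl⟩
      simp only [inner_add_left, inner_smul_left, conj_trivial]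
      have h1 := real_inner_le_norm y v
      have h2 : ‖y‖ ≤ 1 := by simpa using hy
      rw [hv, mul_one] at h1
      linarith
  have hball : ∀ v : E n, ‖v‖ = 1 → h (Metric.closedBall (0 : E n) 1) v = 1 := by
    intro v hv
    refine IsGreatest.csSup_eq ⟨⟨v, by simp [hv], ?_⟩, ?_⟩
    · simp only [real_inner_self_eq_norm_sq, hv]
      norm_num
    · rintro _ ⟨y, hy, rfl⟩
      have h1 := real_inner_le_norm y v
      have h2 : ‖y‖ ≤ 1 := by simpa using hy
      rw [hv, mul_one] at h1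
      simp only
      linarith
  have a0 := hD cK nK e0
  have a1 := hD cK nK e1
  rw [hT, hball e0 n0, hsup e0 n0, hsup (-e0) (by rw [norm_neg, n0]), inner_neg_right,
    real_inner_self_eq_norm_sq, n0] at a0
  rw [hT, hball e1 n1, hsup e1 n1, hsup (-e1) (by rw [norm_neg, n1]), inner_neg_right, i01] at a1
  norm_num at a0 a1
  rw [← a1] at a0
  norm_num at a0

theorem W_translate {K : Set (E n)} (c : IsCompact K) (ne : K.Nonempty) (x : E n) :
    W ((fun y => y + x) '' K) = W K := by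
  have hs : ∀ v, h ((fun y => y + x) '' K) v = h K v + inner ℝ x v := by
    intro v
    refine IsGreatest.csSup_eq ⟨?_, ?_⟩
    · obtain ⟨y, hy, e⟩ := (hmax c ne v).1
      refine ⟨_, ⟨y, hy, rfl⟩, ?_⟩
      simp only at e
      simp only [inner_add_left, e]
    · rintro _ ⟨_, ⟨y, hy, rfl⟩, rfl⟩
      have := hle c hy v
      simp only [inner_add_left]
      linarith
  have iK : Integrable fun v : E n => h K v * Real.exp (-‖v‖ ^ 2) :=
    hint c ne (f := fun t => t) continuous_id fun t => le_rfl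
  have ix : Integrable fun v : E n => inner ℝ x v * Real.exp (-‖v‖ ^ 2) := by
    refine (gauss.const_mul ‖x‖).mono' (by fun_prop) (ae_of_all _ fun v => ?_)
    rw [norm_mul, Real.norm_of_nonneg (Real.exp_pos _).le, ← mul_assoc]
    gcongr
    exact norm_inner_le_norm x v
  have i0 : ∫ v : E n, inner ℝ x v * Real.exp (-‖v‖ ^ 2) = 0 := by
    have := integral_neg_eq_self (fun v : E n => inner ℝ x v * Real.exp (-‖v‖ ^ 2)) volume
    simp only [inner_neg_right, norm_neg, neg_mul, integral_neg] at this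
    linarith
  unfold W
  simp only [hs, add_mul]
  rw [integral_add iK ix, i0, add_zero]

theorem mem_line {L : Set (E n)} (v : Convex ℝ L) {y u : E n} {s t : ℝ} (h1 : y + t • u ∈ L)
    (h2 : y - t • u ∈ L) (hst : |s| ≤ |t|) : y + s • u ∈ L := by
  rcases eq_or_ne t 0 with rfl | ht
  · have : s = 0 := by simpa using hst
    rwa [this]
  · have h3 : |s / t| ≤ 1 := by
      rw [abs_div]; exact div_le_one_of_le₀ hst (abs_nonneg _)
    obtain ⟨h4, h5⟩ := abs_le.1 h3
    have := v h1 h2 (by linarith : 0 ≤ (1 + s / t) / 2) (by linarith : 0 ≤ (1 - s / t) / 2) (by ring)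
    convert this using 1
    have e : s = (1 + s / t) / 2 * t - (1 - s / t) / 2 * t := by field_simp; ring
    have e1 : (1 + s / t) / 2 + (1 - s / t) / 2 = 1 := by ring
    calc y + s • u = ((1 + s / t) / 2 + (1 - s / t) / 2) • y +
          ((1 + s / t) / 2 * t - (1 - s / t) / 2 * t) • u := by rw [e1, one_smul, ← e]
      _ = _ := by module

theorem eq_of_line {H : Submodule ℝ (E n)} {K L : Set (E n)} {y u : E n} (hy : y ∈ H)
    (hu : u ∈ Hᗮ) (cK : IsCompact K) (vK : Convex ℝ K) (nK : K.Nonempty) (sK : SymIn H K)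
    (cL : IsCompact L) (vL : Convex ℝ L) (nL : L.Nonempty) (sL : SymIn H L)
    (hK : ∀ p ∈ K, ∃ t : ℝ, p = y + t • u) (hL : ∀ p ∈ L, ∃ t : ℝ, p = y + t • u)
    (e : W K = W L) : K = L := by
  have nest : K ⊆ L ∨ L ⊆ K := by
    by_contra hc
    rw [not_or] at hc
    obtain ⟨p, hp, hpL⟩ := not_subset.1 hc.1
    obtain ⟨q, hq, hqK⟩ := not_subset.1 hc.2
    obtain ⟨s, rfl⟩ := hK p hp
    obtain ⟨t, rfl⟩ := hL q hq
    have hp' := sK _ hp y hy (s • u) (Hᗮ.smul_mem s hu) rfl
    have hq' := sL _ hq y hy (t • u) (Hᗮ.smul_mem t hu) rfl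
    rcases le_total |s| |t| with hst | hst
    · exact hpL (mem_line vL hq hq' hst)
    · exact hqK (mem_line vK hp hp' hst)
  rcases nest with hs | hs
  · exact W_strict cK vK nK cL hs e
  · exact (W_strict cL vL nL cK hs e.symm).symm

theorem exists_unit {H : Submodule ℝ (E n)} (hH : Module.finrank ℝ H + 1 = n) :
    ∃ u ∈ Hᗮ, ∀ w ∈ Hᗮ, ∃ t : ℝ, w = t • u := by
  have h1 : Module.finrank ℝ Hᗮ = 1 := by
    have := Submodule.finrank_add_finrank_orthogonal H
    rw [finrank_euclideanSpace_fin] at this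
    omega
  obtain ⟨u, -, hu⟩ := finrank_eq_one_iff'.1 h1
  refine ⟨u, u.2, fun w hw => ?_⟩
  obtain ⟨t, ht⟩ := hu ⟨w, hw⟩
  exact ⟨t, by simpa using (congrArg Subtype.val ht).symm⟩

theorem hyperplane {H : Submodule ℝ (E n)} (hH : Module.finrank ℝ H + 1 = n)
    {D : Set (E n) → Set (E n)} (hD : IsSymmetrization false H D) :
    TranslationInvariant false H D := by
  obtain ⟨u, hu, hspan⟩ := exists_unit hH
  obtain ⟨d1, d2, d3, d4⟩ := hD
  intro K hK sK x hx
  obtain ⟨ξ, rfl⟩ := hspan x hx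
  have trans : ∀ {M : Set (E n)} (z : E n), InClass false M →
      InClass false ((fun y => y + z) '' M) := by
    rintro M z ⟨c, v, ne, -⟩
    refine ⟨c.image (by fun_prop), ?_, ne.image _, by simp⟩
    simpa [add_comm] using v.translate z
  have seg : ∀ (y : E n) (r : ℝ), InClass false (segment ℝ (y - r • u) (y + r • u)) := by
    intro y r
    refine ⟨?_, convex_segment _ _, ⟨_, left_mem_segment _ _ _⟩, by simp⟩
    rw [segment_eq_image]; exact isCompact_Icc.image (by fun_prop)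
  have mseg : ∀ (y : E n) (r : ℝ) (p : E n), p ∈ segment ℝ (y - r • u) (y + r • u) →
      ∃ t : ℝ, |t| ≤ |r| ∧ p = y + t • u := by
    rintro y r p ⟨a, b, ha, hb, hab, rfl⟩
    refine ⟨(b - a) * r, ?_, ?_⟩
    · rw [abs_mul]
      refine mul_le_of_le_one_left (abs_nonneg _) (abs_le.2 ⟨by linarith, by linarith⟩)
    · calc a • (y - r • u) + b • (y + r • u) = (a + b) • y + ((b - a) * r) • u := by module
        _ = y + ((b - a) * r) • u := by rw [hab, one_smul]
  have sseg : ∀ (y : E n), y ∈ H → ∀ r : ℝ, SymIn H (segment ℝ (y - r • u) (y + r • u)) := by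
    intro y hy r p hp y' hy' z' hz' e
    obtain ⟨t, ht, rfl⟩ := mseg y r p hp
    have e1 : y - y' = z' - t • u := by
      rw [sub_eq_sub_iff_add_eq_add, e, add_comm]
    have e2 : y - y' = 0 := by
      have hm : y - y' ∈ H ⊓ Hᗮ := ⟨H.sub_mem hy hy', by
        rw [e1]; exact Hᗮ.sub_mem hz' (Hᗮ.smul_mem t hu)⟩
      rw [Submodule.inf_orthogonal_eq_bot] at hm
      simpa using hm
    have e3 : z' = t • u := by rw [e2] at e1; exact (sub_eq_zero.1 e1.symm)
    have e4 : y' = y := (sub_eq_zero.1 e2).symm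
    have e5 : y' - z' = y + (-t) • u := by rw [e3, e4]; module
    rw [e5]
    exact mem_line (t := r) (convex_segment _ _) (right_mem_segment _ _ _)
      (left_mem_segment _ _ _) (by rwa [abs_neg])
  have hsub : K ⊆ D ((fun y => y + ξ • u) '' K) := by
    intro p hp
    obtain ⟨y, hy, z, hz, rfl⟩ := H.exists_add_mem_mem_orthogonal p
    obtain ⟨τ, rfl⟩ := hspan z hz
    have hp' := sK _ hp y hy (τ • u) hz rfl
    have hsK : segment ℝ (y - τ • u) (y + τ • u) ⊆ K := hK.2.1.segment_subset hp' hp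
    set T := (fun y => y + ξ • u) '' segment ℝ (y - τ • u) (y + τ • u) with hT
    have cT : InClass false T := trans _ (seg y τ)
    set R := |τ| + |ξ| with hR
    have hTS : T ⊆ segment ℝ (y - R • u) (y + R • u) := by
      rintro _ ⟨q, hq, rfl⟩
      obtain ⟨t, ht, rfl⟩ := mseg y τ q hq
      have : y + t • u + ξ • u = y + (t + ξ) • u := by module
      simp only [this]
      refine mem_line (convex_segment _ _) (right_mem_segment _ _ _) (left_mem_segment _ _ _) ?_
      rw [hR, abs_of_nonneg (by positivity : 0 ≤ |τ| + |ξ|)]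
      exact (abs_add_le _ _).trans (by linarith)
    have hDT : D T ⊆ segment ℝ (y - R • u) (y + R • u) := by
      have := d2 T _ cT (seg y R) hTS
      rwa [d4 _ (seg y R) (sseg y hy R)] at this
    have hDTs : segment ℝ (y - τ • u) (y + τ • u) = D T := by
      obtain ⟨⟨c1, c2, c3, -⟩, c4⟩ := d1 T cT
      obtain ⟨f1, f2, f3, -⟩ := seg y τ
      refine eq_of_line hy hu f1 f2 f3 (sseg y hy τ) c1 c2 c3 c4
        (fun p hp => ?_) (fun p hp => ?_) ?_
      · obtain ⟨t, -, e⟩ := mseg y τ p hp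
        exact ⟨t, e⟩
      · obtain ⟨t, -, e⟩ := mseg y R p (hDT hp)
        exact ⟨t, e⟩
      · rw [d3 T cT, hT, W_translate f1 f3]
    have hfin : D T ⊆ D ((fun y => y + ξ • u) '' K) :=
      d2 T _ cT (trans _ hK) (image_mono hsK)
    refine hfin ?_
    rw [← hDTs]
    exact right_mem_segment _ _ _
  obtain ⟨⟨c1, c2, c3, -⟩, c4⟩ := d1 _ (trans (ξ • u) hK)
  refine (W_strict hK.1 hK.2.1 hK.2.2.1 c1 hsub ?_).symm
  rw [d3 _ (trans (ξ • u) hK), W_translate hK.1 hK.2.2.1]

theorem dim_one {H : Submodule ℝ (E 1)} (hH : Module.finrank ℝ H + 1 = 1) (b : Bool)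
    {D : Set (E 1) → Set (E 1)} (hD : IsSymmetrization b H D) : TranslationInvariant b H D := by
  obtain ⟨u, hu, hspan⟩ := exists_unit hH
  have hbot : H = ⊥ := Submodule.finrank_eq_zero.1 (by omega)
  obtain ⟨d1, d2, d3, d4⟩ := hD
  intro K hK sK x hx
  have trans : InClass b ((fun y => y + x) '' K) := by
    obtain ⟨c, v, ne, i⟩ := hK
    refine ⟨c.image (by fun_prop), ?_, ne.image _, fun hb => ?_⟩
    · simpa [add_comm] using v.translate x
    · obtain ⟨p, hp⟩ := i hb
      refine ⟨p + x, ?_⟩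
      have := (Homeomorph.addRight x).image_interior K
      have h2 : (fun y => y + x) '' K = (Homeomorph.addRight x) '' K := rfl
      rw [h2, ← this]
      exact ⟨p, hp, rfl⟩
  have all : ∀ p : E 1, ∃ t : ℝ, p = 0 + t • u := by
    intro p
    obtain ⟨t, ht⟩ := hspan p (by rw [hbot]; simp)
    exact ⟨t, by rw [zero_add, ht]⟩
  obtain ⟨⟨c1, c2, c3, -⟩, c4⟩ := d1 _ trans
  refine (eq_of_line H.zero_mem hu hK.1 hK.2.1 hK.2.2.1 sK c1 c2 c3 c4 (fun p _ => all p)
    (fun p _ => all p) ?_).symm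
  rw [d3 _ trans, W_translate hK.1 hK.2.2.1]

/-! ### equivariance, homogeneity, and the exact set of failures -/

theorem h_iso (g : E n ≃ₗᵢ[ℝ] E n) (K : Set (E n)) (v : E n) : h (g '' K) v = h K (g.symm v) := by
  unfold h
  rw [image_image]
  congr 1
  refine image_congr fun y _ => ?_
  rw [← g.inner_map_map y (g.symm v), g.apply_symm_apply]

theorem int_iso (g : E n ≃ₗᵢ[ℝ] E n) (f : ℝ → ℝ) (K : Set (E n)) :
    ∫ v : E n, f (h (g '' K) v) * Real.exp (-‖v‖ ^ 2) =
      ∫ v : E n, f (h K v) * Real.exp (-‖v‖ ^ 2) := by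
  have e := (g.symm.measurePreserving).integral_comp g.symm.toHomeomorph.measurableEmbedding
    (fun v : E n => f (h K v) * Real.exp (-‖v‖ ^ 2))
  rw [← e]
  refine integral_congr_ae (ae_of_all _ fun v => ?_)
  simp only [h_iso, LinearIsometryEquiv.norm_map]

theorem lam_iso (g : E n ≃ₗᵢ[ℝ] E n) (K : Set (E n)) : lam (g '' K) = lam K := by
  have e1 : P (g '' K) = P K := int_iso g (fun t => max t 0) K
  have e2 : N (g '' K) = N K := int_iso g (fun t => max (-t) 0) K
  rw [lam, lam, e1, e2]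

theorem A_iso (g : E n ≃ₗᵢ[ℝ] E n) (K : Set (E n)) : A (g '' K) = g '' A K := by
  unfold A
  rw [lam_iso]
  ext z
  constructor
  · rintro ⟨⟨t, y⟩, ⟨ht, ⟨w, hw, rfl⟩⟩, rfl⟩
    exact ⟨t • w, ⟨(t, w), ⟨ht, hw⟩, rfl⟩, by simp⟩
  · rintro ⟨_, ⟨⟨t, w⟩, ⟨ht, hw⟩, rfl⟩, rfl⟩
    exact ⟨(t, g w), ⟨ht, ⟨w, hw, rfl⟩⟩, by simp⟩

theorem D_iso (g : E n ≃ₗᵢ[ℝ] E n) (K : Set (E n)) : D (g '' K) = g '' D K := by
  unfold D
  rw [A_iso]
  ext z
  constructor
  · rintro ⟨⟨p, q⟩, ⟨⟨a, ha, rfl⟩, ⟨b, hb, rfl⟩⟩, rfl⟩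
    exact ⟨(1 / 2 : ℝ) • (a - b), ⟨(a, b), ⟨ha, hb⟩, rfl⟩, by simp⟩
  · rintro ⟨_, ⟨⟨a, b⟩, ⟨ha, hb⟩, rfl⟩, rfl⟩
    exact ⟨(g a, g b), ⟨⟨a, ha, rfl⟩, ⟨b, hb, rfl⟩⟩, by simp⟩

theorem h_scale {t : ℝ} (ht : 0 < t) (K : Set (E n)) (v : E n) :
    h ((fun y : E n => t • y) '' K) v = t * h K v := by
  unfold h
  rw [image_image, ← smul_eq_mul, ← Real.sSup_smul_of_nonneg ht.le]
  congr 1
  ext r
  simp only [mem_image, Set.mem_smul_set, inner_smul_left, conj_trivial, smul_eq_mul]
  constructor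
  · rintro ⟨y, hy, rfl⟩
    exact ⟨_, ⟨y, hy, rfl⟩, rfl⟩
  · rintro ⟨_, ⟨y, hy, rfl⟩, rfl⟩
    exact ⟨y, hy, rfl⟩

theorem lam_scale {t : ℝ} (ht : 0 < t) (K : Set (E n)) :
    lam ((fun y : E n => t • y) '' K) = lam K := by
  have e1 : P ((fun y : E n => t • y) '' K) = t * P K := by
    unfold P
    rw [← integral_const_mul]
    refine integral_congr_ae (ae_of_all _ fun v => ?_)
    simp only [h_scale ht]
    rw [← mul_assoc, mul_max_of_nonneg _ _ ht.le, mul_zero]
  have e2 : N ((fun y : E n => t • y) '' K) = t * N K := by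
    unfold N
    rw [← integral_const_mul]
    refine integral_congr_ae (ae_of_all _ fun v => ?_)
    simp only [h_scale ht]
    rw [← mul_assoc, mul_max_of_nonneg _ _ ht.le, mul_zero, mul_neg]
  rw [lam, lam, e1, e2, mul_div_mul_left _ _ ht.ne']

theorem D_scale {t : ℝ} (ht : 0 < t) (K : Set (E n)) :
    D ((fun y : E n => t • y) '' K) = (fun y : E n => t • y) '' D K := by
  have hA : A ((fun y : E n => t • y) '' K) = (fun y : E n => t • y) '' A K := by
    unfold A
    rw [lam_scale ht]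
    ext z
    constructor
    · rintro ⟨⟨r, y⟩, ⟨hr, ⟨w, hw, rfl⟩⟩, rfl⟩
      exact ⟨r • w, ⟨(r, w), ⟨hr, hw⟩, rfl⟩, by simp only; rw [smul_comm]⟩
    · rintro ⟨_, ⟨⟨r, w⟩, ⟨hr, hw⟩, rfl⟩, rfl⟩
      exact ⟨(r, t • w), ⟨hr, ⟨w, hw, rfl⟩⟩, by simp only; rw [smul_comm]⟩
  unfold D
  rw [hA]
  ext z
  constructor
  · rintro ⟨⟨p, q⟩, ⟨⟨a, ha, rfl⟩, ⟨b, hb, rfl⟩⟩, rfl⟩
    exact ⟨(1 / 2 : ℝ) • (a - b), ⟨(a, b), ⟨ha, hb⟩, rfl⟩, by simp only; module⟩
  · rintro ⟨_, ⟨⟨a, b⟩, ⟨ha, hb⟩, rfl⟩, rfl⟩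
    exact ⟨(t • a, t • b), ⟨⟨a, ha, rfl⟩, ⟨b, hb, rfl⟩⟩, by simp only; module⟩

theorem h_translate {K : Set (E n)} (c : IsCompact K) (ne : K.Nonempty) (x v : E n) :
    h ((fun y => y + x) '' K) v = h K v + inner ℝ x v := by
  refine IsGreatest.csSup_eq ⟨?_, ?_⟩
  · obtain ⟨y, hy, e⟩ := (hmax c ne v).1
    refine ⟨_, ⟨y, hy, rfl⟩, ?_⟩
    simp only at e
    simp only [inner_add_left, e]
  · rintro _ ⟨_, ⟨y, hy, rfl⟩, rfl⟩
    have := hle c hy v
    simp only [inner_add_left]
    linarith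

theorem h_symm {K : Set (E n)} (s : ∀ x ∈ K, -x ∈ K) (v : E n) : h K (-v) = h K v := by
  unfold h
  congr 1
  ext r
  constructor
  · rintro ⟨y, hy, rfl⟩
    exact ⟨-y, s y hy, by simp⟩
  · rintro ⟨y, hy, rfl⟩
    exact ⟨-y, s y hy, by simp⟩

theorem lam_one {K : Set (E n)} (c : IsCompact K) (z : (0 : E n) ∈ K) : lam K = 1 := by
  have : N K = 0 := by
    rw [N, ← integral_zero (E n) ℝ]; congr 1; ext w
    have := hle c z w
    simp at this; simp [this]
  simp [lam, this]

theorem A_self {K : Set (E n)} (c : IsCompact K) (v : Convex ℝ K) (z : (0 : E n) ∈ K) :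
    A K = K := by
  rw [A, lam_one c z]
  refine Subset.antisymm ?_ fun x hx => ⟨(1, x), ⟨by simp, hx⟩, by simp⟩
  rintro _ ⟨⟨t, x⟩, ⟨ht, hx⟩, rfl⟩
  exact v.smul_mem_of_zero_mem z hx ht

/-- If `N K = 0` then `0 ∈ K`. -/
theorem zero_mem_of_N {K : Set (E n)} (c : IsCompact K) (v : Convex ℝ K) (ne : K.Nonempty)
    (hN : N K = 0) : (0 : E n) ∈ K := by
  by_contra hx
  obtain ⟨f, u, u', hf1, huu, hf2⟩ := geometric_hahn_banach_compact_closed v c
    (convex_singleton (0 : E n)) isClosed_singleton (disjoint_singleton_right.2 hx)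
  set w : E n := (InnerProductSpace.toDual ℝ (E n)).symm f with hw
  have hfw : ∀ y : E n, inner ℝ y w = f y := by
    intro y
    rw [real_inner_comm, hw, InnerProductSpace.toDual_symm_apply]
  have lt : h K w < 0 := by
    obtain ⟨y, hy, e⟩ := (hmax c ne w).1
    have h1 := hf1 y hy
    have h2 := hf2 0 rfl
    rw [map_zero] at h2
    simp only [hfw] at e
    linarith
  have ae := (integral_eq_zero_iff_of_nonneg
    (fun v : E n => mul_nonneg (le_max_right (-h K v) 0) (Real.exp_pos (-‖v‖ ^ 2)).le)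
    (iN c ne)).1 hN
  have cK' := hcont c ne
  have ct : Continuous fun v : E n => max (-h K v) 0 * Real.exp (-‖v‖ ^ 2) := by fun_prop
  have this : max (-h K w) 0 * Real.exp (-‖w‖ ^ 2) = 0 :=
    congrFun ((ct.ae_eq_iff_eq volume continuous_const).1 ae) w
  have h1 := (mul_eq_zero.1 this).resolve_right (Real.exp_pos _).ne'
  rw [max_eq_left (by linarith)] at h1
  linarith

theorem line_le {K L : Set (E n)} {x : E n} (vK : Convex ℝ K) (vL : Convex ℝ L)
    (sK : ∀ y ∈ K, -y ∈ K) (sL : ∀ y ∈ L, -y ∈ L) (lK : ∀ y ∈ K, ∃ t : ℝ, y = t • x)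
    (lL : ∀ y ∈ L, ∃ t : ℝ, y = t • x) : K ⊆ L ∨ L ⊆ K := by
  by_contra hcon
  rw [not_or, Set.not_subset, Set.not_subset] at hcon
  obtain ⟨⟨a, haK, haL⟩, ⟨b, hbL, hbK⟩⟩ := hcon
  obtain ⟨s, rfl⟩ := lK a haK
  obtain ⟨t, rfl⟩ := lL b hbL
  rcases le_total |s| |t| with hst | hst
  · refine haL ?_
    have := mem_line vL (y := 0) (u := x) (s := s) (t := t) (by simpa using hbL)
      (by simpa using sL _ hbL) hst
    simpa using this
  · refine hbK ?_
    have := mem_line vK (y := 0) (u := x) (s := t) (t := s) (by simpa using haK)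
      (by simpa using sK _ haK) hst
    simpa using this

/-- The exact set of translations of a symmetric set for which the invariance holds. -/
theorem D_translate_iff (hn : 0 < n) {K : Set (E n)} (hK : InClass false K)
    (s : SymIn (⊥ : Submodule ℝ (E n)) K) (x : E n) :
    D ((fun y => y + x) '' K) = K ↔ x ∈ K ∨ ∀ y ∈ K, ∃ t : ℝ, y = t • x := by
  obtain ⟨c, v, ne, -⟩ := hK
  rw [sym_bot] at s
  have z : (0 : E n) ∈ K := by
    obtain ⟨y, hy⟩ := ne
    simpa using v hy (s y hy) (by norm_num : (0 : ℝ) ≤ 1 / 2) (by norm_num) (add_halves 1)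
  set K' := (fun y => y + x) '' K with hK'
  have c' : IsCompact K' := c.image (by fun_prop)
  have ne' : K'.Nonempty := ne.image _
  have v' : Convex ℝ K' := by
    rintro _ ⟨p, hp, rfl⟩ _ ⟨q, hq, rfl⟩ a b ha hb hab
    refine ⟨a • p + b • q, v hp hq ha hb hab, ?_⟩
    have e : x = a • x + b • x := by rw [← add_smul, hab, one_smul]
    simp only [smul_add]
    nth_rw 1 [e]
    abel
  constructor
  · intro hD'
    by_contra hcon
    rw [not_or] at hcon
    obtain ⟨hx, hline⟩ := hcon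
    push Not at hline
    obtain ⟨y, hy, hyt⟩ := hline
    have hx0 : x ≠ 0 := fun e => hx (e ▸ z)
    have hxn : (0 : ℝ) < ‖x‖ ^ 2 := by positivity
    set w : E n := y - (inner ℝ x y / ‖x‖ ^ 2) • x with hw
    have hxw : inner ℝ x w = 0 := by
      rw [hw, inner_sub_right, inner_smul_right, real_inner_self_eq_norm_sq]
      field_simp
      ring
    have hw0 : w ≠ 0 := fun e => hyt _ (sub_eq_zero.1 e)
    have hyw : inner ℝ y w = ‖w‖ ^ 2 := by
      have e1 : y = w + (inner ℝ x y / ‖x‖ ^ 2) • x := by rw [hw]; abel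
      have e2 : inner ℝ y w = inner ℝ (w + (inner ℝ x y / ‖x‖ ^ 2) • x) w := by rw [← e1]
      rw [e2, inner_add_left, inner_smul_left, conj_trivial, hxw, mul_zero, add_zero,
        real_inner_self_eq_norm_sq]
    have hpos : 0 < h K w := by
      have h1 := hle c hy w
      rw [hyw] at h1
      have : 0 < ‖w‖ ^ 2 := by positivity
      linarith
    have h1 := _root_.Pool.Agent.Results.MP_a761c9_gt.EquivariantExample.hD c' ne' w
    rw [hD', h_translate c ne, h_translate c ne, h_symm s, inner_neg_right, hxw, neg_zero,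
      add_zero, max_eq_left hpos.le, add_self_div_two] at h1
    have hl : lam K' = 1 := by
      have : (lam K' - 1) * h K w = 0 := by linarith
      rcases mul_eq_zero.1 this with h2 | h2
      · linarith
      · exact absurd h2 hpos.ne'
    have hN : N K' = 0 := by
      have h2 : N K' / P K' = 0 := by rw [lam] at hl; linarith
      rcases div_eq_zero_iff.1 h2 with h3 | h3
      · exact h3
      · have := NP c' ne'
        have := N0 (K := K')
        linarith
    obtain ⟨a, ha, hax⟩ := zero_mem_of_N c' v' ne' hN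
    refine hx ?_
    have : x = -a := by
      simp only at hax
      rw [eq_neg_iff_add_eq_zero, add_comm]
      exact hax
    rw [this]
    exact s a ha
  · rintro (hx | hline)
    · have z' : (0 : E n) ∈ K' := ⟨-x, s x hx, by simp⟩
      rw [D, A_self c' v' z']
      refine Subset.antisymm ?_ fun y hy => ?_
      · rintro _ ⟨⟨_, _⟩, ⟨⟨p, hp, rfl⟩, ⟨q, hq, rfl⟩⟩, rfl⟩
        convert v hp (s q hq) (by norm_num : (0 : ℝ) ≤ 1 / 2) (by norm_num) (add_halves 1) using 1
        simp only; module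
      · exact ⟨(y + x, -y + x), ⟨⟨y, hy, rfl⟩, ⟨-y, s y hy, rfl⟩⟩, by simp only; module⟩
    · have hcl : InClass false (D K') := D_class hn ⟨c', v', ne', fun hb => by simp at hb⟩
      have hsy := D_symm (K := K')
      rw [sym_bot] at hsy
      have hlD : ∀ y ∈ D K', ∃ t : ℝ, y = t • x := by
        have hl' : ∀ y ∈ A K', ∃ t : ℝ, y = t • x := by
          rintro _ ⟨⟨r, _⟩, ⟨hr, ⟨p, hp, rfl⟩⟩, rfl⟩
          obtain ⟨t, ht⟩ := hline p hp
          exact ⟨r * (t + 1), by simp only [ht]; module⟩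
        rintro _ ⟨⟨p, q⟩, ⟨hp, hq⟩, rfl⟩
        obtain ⟨t, ht⟩ := hl' p hp
        obtain ⟨t', ht'⟩ := hl' q hq
        exact ⟨1 / 2 * (t - t'), by simp only [ht, ht']; module⟩
      have hW : W (D K') = W K := by rw [WD c' ne', W_translate c ne]
      rcases line_le hcl.2.1 v hsy s hlD hline with h1 | h1
      · exact W_strict hcl.1 hcl.2.1 hcl.2.2.1 c h1 hW
      · exact (W_strict c v ne hcl.1 h1 hW.symm).symm

/-- (1) For every `n ≥ 2` there is one map `D` which, for the class of compact convex sets and for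
the class of convex bodies, is a monotonic, `V₁`-preserving symmetrization with respect to
`H = {o}` that fixes the symmetric sets; `D` commutes moreover with all linear isometries and all
dilations; and for every symmetric `K` in the class and every `x` the equality `D (K + x) = K`
holds only if `x ∈ K` or `K` is contained in the line `ℝ x` (and in these cases it does hold).
(2) For `H = {o}` and either class the statement of the problem holds exactly for `n = 1`. -/
theorem result :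
    (∀ n : ℕ, 2 ≤ n → ∃ D : Set (E n) → Set (E n),
      (∀ b : Bool, IsSymmetrization b ⊥ D ∧ ¬ TranslationInvariant b ⊥ D) ∧
      (∀ (g : E n ≃ₗᵢ[ℝ] E n) (K : Set (E n)), D (g '' K) = g '' D K) ∧
      (∀ t : ℝ, 0 < t → ∀ K : Set (E n),
        D ((fun y => t • y) '' K) = (fun y => t • y) '' D K) ∧
      (∀ (b : Bool) (K : Set (E n)), InClass b K → SymIn ⊥ K → ∀ x : E n,
        (D ((fun y => y + x) '' K) = K ↔ x ∈ K ∨ ∀ y ∈ K, ∃ t : ℝ, y = t • x))) ∧
    (∀ (n : ℕ) (b : Bool), 1 ≤ n →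
      ((∀ D : Set (E n) → Set (E n), IsSymmetrization b ⊥ D → TranslationInvariant b ⊥ D) ↔
        n = 1)) := by
  refine ⟨fun n hn => ⟨D, fun b => ⟨D_isSymmetrization (by omega) b,
    D_not_translationInvariant hn b⟩, D_iso, fun t ht K => D_scale ht K, fun b K hK s x =>
    D_translate_iff (by omega) ⟨hK.1, hK.2.1, hK.2.2.1, fun hb => by simp at hb⟩ s x⟩, ?_⟩
  intro n b hn
  refine ⟨fun hall => ?_, ?_⟩
  · by_contra hne
    exact D_not_translationInvariant (by omega) b
      (hall D (D_isSymmetrization (by omega) b))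
  · rintro rfl D hD
    exact dim_one (by simp) b hD

end Pool.Agent.Results.MP_a761c9_gt.EquivariantExample
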